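import Pool.Agent.N669.CQ.Stm

/-!
# Project CQ (helper669), part EX: existence of minimal circumscribed quadrilaterals (helper82)
-/

set_option autoImplicit false

namespace Pool.Agent.N82.CQ

open Pool.Agent.N669.CQ MeasureTheory Set

/-- quadruples of points -/
abbrev Q4 := P × P × P × P

lemma cr_cont {f g : Q4 → P} (hf : Continuous f) (hg : Continuous g) :
    Continuous (fun q : Q4 => cr (f q) (g q)) := by
  unfold cr
  fun_prop

lemma lf_closed (K : Set P) {f g : Q4 → P} (hf : Continuous f) (hg : Continuous g) :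
    IsClosed {q : Q4 | LF K (f q) (g q)} := by
  have h : {q : Q4 | LF K (f q) (g q)} = ⋂ k ∈ K, {q : Q4 | 0 ≤ cr (g q - f q) (k - f q)} := by
    ext q
    simp [LF]
  rw [h]
  exact isClosed_biInter fun k _ => isClosed_le continuous_const
    (cr_cont (hg.sub hf) (continuous_const.sub hf))

/-- the degenerate case -/
lemma degen (h3 : S_CUT) (h4 : S_DEG) {K : Set P} (hK : Bd K) {a b c d : P}
    (t1 : 0 ≤ cr (a - d) (b - a)) (t2 : cr (b - a) (c - b) = 0) (t3 : 0 ≤ cr (c - b) (d - c))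
    (t4 : 0 ≤ cr (d - c) (a - d)) (hL : Lf K a b c d) (h0 : 0 < ar a b c d)
    (hv : vol K < ar a b c d) :
    ∃ a' b' c' d' : P, Ci K a' b' c' d' ∧ ar a' b' c' d' < ar a b c d := by
  obtain ⟨g1, g2, g3⟩ := h4 K a b c d t1 t2 t3 t4 hL h0
  obtain ⟨a', b', c', d', k1, k2⟩ := h3 K hK a c d g1 g3 hL.cd hL.da (g2 ▸ hv)
  exact ⟨a', b', c', d', k1, g2 ▸ k2⟩

lemma ar_rot (a b c d : P) : ar b c d a = ar a b c d := by
  unfold ar cr
  simp only [Prod.fst_sub, Prod.snd_sub]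
  ring

lemma lf_rot {K : Set P} {a b c d : P} (h : Lf K a b c d) : Lf K b c d a :=
  ⟨h.bc, h.cd, h.da, h.ab⟩

/-- EX -/
theorem t_EX (h1 : S_BOX) (h2 : S_BDD) (h3 : S_CUT) (h4 : S_DEG) : S_EX := by
  intro K hK hm
  obtain ⟨hv, a0, b0, c0, d0, h0⟩ := h1 K hK
  obtain ⟨R, hR⟩ := h2 K hK (ar a0 b0 c0 d0)
  set M : ℝ := ar a0 b0 c0 d0 with hM
  set S : Set Q4 := {q | Ci K q.1 q.2.1 q.2.2.1 q.2.2.2 ∧ ar q.1 q.2.1 q.2.2.1 q.2.2.2 ≤ M}
    with hS
  have hSb : Bornology.IsBounded S := by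
    refine isBounded_iff_forall_norm_le.2 ⟨R, ?_⟩
    intro q hq
    obtain ⟨r1, r2, r3, r4⟩ := hR _ _ _ _ hq.1 hq.2
    exact norm_prod_le_iff.2 ⟨r1, norm_prod_le_iff.2 ⟨r2, norm_prod_le_iff.2 ⟨r3, r4⟩⟩⟩
  have hSn : (closure S).Nonempty := ⟨(a0, b0, c0, d0), subset_closure ⟨h0, le_rfl⟩⟩
  have hac : Continuous (fun q : Q4 => ar q.1 q.2.1 q.2.2.1 q.2.2.2) := by
    unfold ar cr
    fun_prop
  obtain ⟨q, hq, hmin⟩ := hSb.isCompact_closure.exists_isMinOn hSn hac.continuousOn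
  have c1 : Continuous (fun q : Q4 => q.1) := by fun_prop
  have c2 : Continuous (fun q : Q4 => q.2.1) := by fun_prop
  have c3 : Continuous (fun q : Q4 => q.2.2.1) := by fun_prop
  have c4 : Continuous (fun q : Q4 => q.2.2.2) := by fun_prop
  have t1 : 0 ≤ cr (q.1 - q.2.2.2) (q.2.1 - q.1) := by
    refine closure_minimal (t := {q : Q4 | 0 ≤ cr (q.1 - q.2.2.2) (q.2.1 - q.1)})
      (fun q hq => hq.1.1.ta.le) (isClosed_le continuous_const
        (cr_cont (c1.sub c4) (c2.sub c1))) hq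
  have t2 : 0 ≤ cr (q.2.1 - q.1) (q.2.2.1 - q.2.1) := by
    refine closure_minimal (t := {q : Q4 | 0 ≤ cr (q.2.1 - q.1) (q.2.2.1 - q.2.1)})
      (fun q hq => hq.1.1.tb.le) (isClosed_le continuous_const
        (cr_cont (c2.sub c1) (c3.sub c2))) hq
  have t3 : 0 ≤ cr (q.2.2.1 - q.2.1) (q.2.2.2 - q.2.2.1) := by
    refine closure_minimal (t := {q : Q4 | 0 ≤ cr (q.2.2.1 - q.2.1) (q.2.2.2 - q.2.2.1)})
      (fun q hq => hq.1.1.tc.le) (isClosed_le continuous_const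
        (cr_cont (c3.sub c2) (c4.sub c3))) hq
  have t4 : 0 ≤ cr (q.2.2.2 - q.2.2.1) (q.1 - q.2.2.2) := by
    refine closure_minimal (t := {q : Q4 | 0 ≤ cr (q.2.2.2 - q.2.2.1) (q.1 - q.2.2.2)})
      (fun q hq => hq.1.1.td.le) (isClosed_le continuous_const
        (cr_cont (c4.sub c3) (c1.sub c4))) hq
  have l1 : LF K q.1 q.2.1 :=
    closure_minimal (t := {q : Q4 | LF K q.1 q.2.1}) (fun q hq => hq.1.2.ab)
      (lf_closed K c1 c2) hq
  have l2 : LF K q.2.1 q.2.2.1 :=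
    closure_minimal (t := {q : Q4 | LF K q.2.1 q.2.2.1}) (fun q hq => hq.1.2.bc)
      (lf_closed K c2 c3) hq
  have l3 : LF K q.2.2.1 q.2.2.2 :=
    closure_minimal (t := {q : Q4 | LF K q.2.2.1 q.2.2.2}) (fun q hq => hq.1.2.cd)
      (lf_closed K c3 c4) hq
  have l4 : LF K q.2.2.2 q.1 :=
    closure_minimal (t := {q : Q4 | LF K q.2.2.2 q.1}) (fun q hq => hq.1.2.da)
      (lf_closed K c4 c1) hq
  have hge : √2 * vol K ≤ ar q.1 q.2.1 q.2.2.1 q.2.2.2 :=
    closure_minimal (t := {q : Q4 | √2 * vol K ≤ ar q.1 q.2.1 q.2.2.1 q.2.2.2})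
      (fun q hq => hm _ _ _ _ hq.1) (isClosed_le continuous_const hac) hq
  have hle : ar q.1 q.2.1 q.2.2.1 q.2.2.2 ≤ M :=
    closure_minimal (t := {q : Q4 | ar q.1 q.2.1 q.2.2.1 q.2.2.2 ≤ M})
      (fun q hq => hq.2) (isClosed_le hac continuous_const) hq
  obtain ⟨a, b, c, d⟩ := q
  simp only at t1 t2 t3 t4 l1 l2 l3 l4 hge hle
  have hall : ∀ a' b' c' d' : P, Ci K a' b' c' d' → ar a b c d ≤ ar a' b' c' d' := by
    intro a' b' c' d' hC
    rcases le_or_gt (ar a' b' c' d') M with h | h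
    · exact hmin (show (a', b', c', d') ∈ closure S from subset_closure ⟨hC, h⟩)
    · exact hle.trans h.le
  have h12 : (1 : ℝ) < √2 := by
    rw [Real.lt_sqrt (by norm_num)]
    norm_num
  have hvl : vol K < ar a b c d := lt_of_lt_of_le (by nlinarith) hge
  have ha0 : 0 < ar a b c d := hv.trans hvl
  have hL : Lf K a b c d := ⟨l1, l2, l3, l4⟩
  have key : ¬ ∃ a' b' c' d' : P, Ci K a' b' c' d' ∧ ar a' b' c' d' < ar a b c d := by
    rintro ⟨a', b', c', d', g1, g2⟩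
    exact absurd (hall a' b' c' d' g1) (not_le.2 g2)
  refine ⟨a, b, c, d, ⟨⟨?_, ?_, ?_, ?_⟩, hL⟩, hall⟩
  · -- rotate three times: (d, a, b, c)
    refine lt_of_le_of_ne t1 fun h => key ?_
    have e : ar d a b c = ar a b c d := by rw [← ar_rot d a b c]
    have := degen h3 h4 hK t4 h.symm t2 t3 (lf_rot (lf_rot (lf_rot hL))) (e ▸ ha0) (e ▸ hvl)
    rwa [e] at this
  · refine lt_of_le_of_ne t2 fun h => key ?_
    exact degen h3 h4 hK t1 h.symm t3 t4 hL ha0 hvl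
  · refine lt_of_le_of_ne t3 fun h => key ?_
    have e : ar b c d a = ar a b c d := ar_rot a b c d
    have := degen h3 h4 hK t2 h.symm t4 t1 (lf_rot hL) (e ▸ ha0) (e ▸ hvl)
    rwa [e] at this
  · refine lt_of_le_of_ne t4 fun h => key ?_
    have e : ar c d a b = ar a b c d := by rw [ar_rot b c d a, ar_rot a b c d]
    have := degen h3 h4 hK t3 h.symm t1 t2 (lf_rot (lf_rot hL)) (e ▸ ha0) (e ▸ hvl)
    rwa [e] at this

end Pool.Agent.N82.CQ
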